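import Pool.Agent.L0h2.XP.FLD
import Pool.Agent.L0h2.XP.REP
import Pool.Agent.Y948.CQ.C2
import Pool.Agent.L0h1.EV.Crm
import Pool.Agent.L0h75.EV.UniE

/-!
# The conjecture modulo 2 for several elliptic curves at once over all the number fields in generic
# multiquadratic towers

`E_n` is the quadratic twist by the squarefree integer `n` of `X_0(49)` (the curve
`y² = x³ - 35 n² x - 98 n³`, `g = false`, `p = 7`) or of `X_0(36)` (the curve `y² = x³ + n³`, `g = true`,
`p = 3`). Take any finite list of such curves, of both kinds, with root number `+1` over `ℚ`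
(`RootPlus`). A *layer* for the list is a finite set `T` of squarefree, pairwise coprime numbers `e > 1`,
`e ≡ 1` modulo `84`, prime to the `n`, such that for each curve `E_n` of the list and each of the
`2 ^ |T|` products `P` of different elements of `T` the group `E_{nP}(ℚ)` is finite and
`Ш(E_{nP}/ℚ)[2] = 0`.

(1) **The exact proportion of the extensions.** If `T` is a layer, then for each modulus `m` which is a
multiple of `84`, of the `n` and of the elements of `T`, the proportion of the `e ≤ X` for which `T ∪ {e}` is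
a layer again, among all the squarefree `e ≤ X`, `e ≡ 1` modulo `m`, tends to
`share (a 2^|T|) share (b 2^|T|)`, where `share 0 = 1`, `share r = c₂^r / 2`,
`c₂ = ∏_{i ≥ 0} (1 - 2^{-(2i+1)}) = 0.4194...`, and `a` and `b` are the numbers of the curves of the two kinds
in the list (where the curves with the same `|n'|` count once, `n' = n` or `n' = -n / p`). In particular it is
positive and does not depend on `m`, on the `n` and on the elements of `T`.

(2) So every layer (the empty one, if all the groups `E_n(ℚ)` are finite and all the `Ш(E_n/ℚ)[2]` are zero)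
is the beginning of an infinite tower `T ∪ {e_0 < e_1 < ...}`, in which the `e_i` can be required to be `1`
modulo given numbers `q_i`. (For instance, if `q_i` is divisible by `8` and by the first `i` primes, the
tower has finite local degrees at all the primes.)

(3) Let `G` be any set of numbers, finite or infinite, the finite subsets of which are layers. Then Q1 of
the problem, in the exact form of the frozen statement `S16693`, is true for each curve `E_n` of the list
over every number field `K` which can be embedded into `ℚ(√-p, √e : e ∈ G)`: the order of vanishing of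
`L(E_n/K, s)` at `s = 1` and the rank of `E_n(K)` are both zero. If `G` is infinite, these are number fields
of arbitrarily large degree, for instance all the finite layers of `ℚ(√e : e ∈ G)`, with all the
curves of the list at once. All the points of `E_n` over the infinite field have finite order.

For one curve, `X_0(49)` itself, and for the products of the primes `≡ 1` modulo `4` which are inert in
`ℚ(√-7)`, the twists with `L(E, 1) ≠ 0` of Coates, Li, Tian and Zhai (Quadratic twists of elliptic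
curves, Proc. LMS 2015, Theorem 1.2) give such a tower; new are the exact proportion of the extensions of an
arbitrary layer, arbitrary starting curves, arbitrary congruences `e_i ≡ 1`, and several curves at once,
with complex multiplication by two different fields.

Proof. By the joint law of any number of twists of the two curves (`Results/MP_696deb_nt/JointLawTwoFields`,
`Pool/Agent/L0h86/XF`, helpers 86, 19, 23, 38, 59, 61, 63, 74, 75, 83, after `Pool/Agent/L0h2/P`, helpers 2, 74,
86, 1), applied to the `2^|T| k` twists by `n P`, the proportion is the one of (1):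
`Pool/Agent/L0h2/XP/{LAY,REP}`. The rank form over `ℚ` for the twists by `n m`, `m` a squarefree integer
with `√m ∈ K`, gives the order and the rank over `K`: `Pool/Agent/L0h2/XP/{RZF,FLD}` after
`Pool/Agent/L0h74/NF` (helper74). The facts on a single twist are those of
`Results/MP_696deb_nt/{AllTwistsX49ExactProportion, AllTwistsX36ExactProportion}` (helpers 1, 4, 23, 61, 74,
75, 80, 86, 98).
-/

set_option autoImplicit false

open scoped Classical
open NumberField IntermediateField Filter Topology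

namespace Pool.Agent.Results.MP_413b36_nt.GenericTowers

/-! ### Q1 in the form of the frozen statement -/

/-- `M P` is an equation of `E` over the integers which is minimal at the prime ideal `P`, for all `P`. -/
def IsMinimal {K : Type} [Field K] [NumberField K] (E : WeierstrassCurve K)
    (M : {P : Ideal (𝓞 K) // P.IsPrime ∧ P ≠ ⊥} → WeierstrassCurve (𝓞 K)) : Prop :=
  ∀ P, (∃ C : WeierstrassCurve.VariableChange K, C • E = (M P).map (algebraMap (𝓞 K) K)) ∧
      ∀ W : WeierstrassCurve (𝓞 K),
        (∃ C : WeierstrassCurve.VariableChange K, C • E = W.map (algebraMap (𝓞 K) K)) →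
        ∀ n : ℕ, (M P).Δ ∈ P.1 ^ n → W.Δ ∈ P.1 ^ n

/-- The Euler factor of the Hasse–Weil `L`-function at the prime ideal `P`. -/
noncomputable def eulerFactor {K : Type} [Field K] [NumberField K]
    (M : {P : Ideal (𝓞 K) // P.IsPrime ∧ P ≠ ⊥} → WeierstrassCurve (𝓞 K)) (s : ℂ)
    (P : {P : Ideal (𝓞 K) // P.IsPrime ∧ P ≠ ⊥}) : ℂ :=
  (1 - ((Nat.card (𝓞 K ⧸ P.1) : ℂ)
               - (Nat.card {xy : (𝓞 K ⧸ P.1) × (𝓞 K ⧸ P.1) //
                   ((M P).map (Ideal.Quotient.mk P.1)).toAffine.Equation xy.1 xy.2} : ℂ))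
             * (Nat.card (𝓞 K ⧸ P.1) : ℂ) ^ (-s)
           + (if (M P).Δ ∈ P.1 then 0 else (Nat.card (𝓞 K ⧸ P.1) : ℂ) ^ (1 - 2 * s)))⁻¹

/-- Q1 for the pair `(K, E)` (with all the terms of the frozen statement `S16693`), with the additional
information that the order and the rank are zero: all the points of `E(K)` have finite order; there are
families of minimal equations; for each of them, the Hasse–Weil `L`-function, which converges for
`Re s > 3/2`, has an analytic continuation to a connected open set with `Re s > 3/2` and `s = 1`, and each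
such continuation is nonzero at `s = 1`, so that the order and the rank have the same parity. -/
def OrderRankZero (K : Type) [Field K] [NumberField K] (E : WeierstrassCurve K) : Prop :=
  (∀ P : E.toAffine.Point, IsOfFinAddOrder P) ∧ Module.finrank ℤ E.toAffine.Point = 0 ∧
  (∃ M : {P : Ideal (𝓞 K) // P.IsPrime ∧ P ≠ ⊥} → WeierstrassCurve (𝓞 K), IsMinimal E M) ∧
  ∀ M : {P : Ideal (𝓞 K) // P.IsPrime ∧ P ≠ ⊥} → WeierstrassCurve (𝓞 K), IsMinimal E M →
    (∃ (U : Set ℂ) (f : ℂ → ℂ), IsOpen U ∧ IsConnected U ∧ (1 : ℂ) ∈ U ∧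
      {s : ℂ | 3 / 2 < s.re} ⊆ U ∧ AnalyticOnNhd ℂ f U ∧
      ∀ s : ℂ, 3 / 2 < s.re → HasProd (fun P => eulerFactor M s P) (f s)) ∧
    ∀ (U : Set ℂ) (f : ℂ → ℂ), IsOpen U → IsConnected U → (1 : ℂ) ∈ U →
      {s : ℂ | 3 / 2 < s.re} ⊆ U → AnalyticOnNhd ℂ f U →
      (∀ s : ℂ, 3 / 2 < s.re → f s = ∏' P, eulerFactor M s P) →
      analyticOrderAt f 1 = 0 ∧ Even (analyticOrderNatAt f 1 + Module.finrank ℤ E.toAffine.Point)

/-! ### The curves -/

/-- The quadratic twist by `n` of `X_0(49)` (`g = false`) or of `X_0(36)` (`g = true`), over `K`: the curve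
`y² = x³ - 35 n² x - 98 n³`, or `y² = x³ + n³`. -/
def curve (K : Type) [Field K] (g : Bool) (n : ℤ) : WeierstrassCurve K :=
  if g = true then { a₁ := 0, a₂ := 0, a₃ := 0, a₄ := 0, a₆ := (n : K) ^ 3 }
  else { a₁ := 0, a₂ := 0, a₃ := 0, a₄ := -35 * (n : K) ^ 2, a₆ := -98 * (n : K) ^ 3 }

/-- The prime which is ramified in the field of the complex multiplications: `7`, or `3`. -/
def ram (g : Bool) : ℕ := if g = true then 3 else 7

/-- `n`, if `p` does not divide `n`, and `-n / p`, if `p` divides `n` (`p = 7`, or `3`). -/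
def red (g : Bool) (n : ℤ) : ℤ := if (ram g : ℤ) ∣ n then -(n / (ram g : ℤ)) else n

/-- With `n' = red g n`: `n' > 0` for the twists of `X_0(49)`, and `|n'| ≡ 1` modulo `4`, or `n'` even and
negative, for the twists of `X_0(36)`; by the known formulas this means that the root number of the
curve over `ℚ` is `+1` (`n` squarefree). -/
def RootPlus (g : Bool) (n : ℤ) : Prop :=
  if g = true then (red g n).natAbs % 4 = 1 ∨ red g n % 2 = 0 ∧ red g n < 0 else 0 < red g n

/-- `E_n(ℚ)` is finite and `Ш(E_n/ℚ)[2] = 0`. -/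
def TrivialTwo (g : Bool) (n : ℤ) : Prop :=
  Finite (curve ℚ g n).toAffine.Point ∧
    ∀ x : Pool.Agent.TH841.NF.D.Sha (curve ℚ g n), x + x = 0 → x = 0

/-- The layers `T` for the list of the curves `E_{n_l}` of the kinds `g_l`. -/
structure Layer {k : ℕ} (g : Fin k → Bool) (n : Fin k → ℤ) (T : Finset ℕ) : Prop where
  numbers : ∀ e ∈ T, Squarefree e ∧ 1 < e ∧ e % 84 = 1 ∧ ∀ l, Nat.Coprime e (n l).natAbs
  coprime : ∀ e ∈ T, ∀ e' ∈ T, e ≠ e' → Nat.Coprime e e'
  trivial : ∀ S ⊆ T, ∀ l, TrivialTwo (g l) (n l * ((∏ e ∈ S, e : ℕ) : ℤ))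

/-! ### The proportion -/

/-- The constant `0.4194...` -/
noncomputable def c₂ : ℝ := ∏' i : ℕ, (1 - (1 / 2 : ℝ) ^ (2 * i + 1))

/-- `1` for `r = 0` and `c₂^r / 2` for `r > 0`. -/
noncomputable def share (r : ℕ) : ℝ := if r = 0 then 1 else c₂ ^ r / 2

/-- The number of the different `|n'_l|`, `n'_l = red (n_l)`, for the curves of the kind `h`. -/
noncomputable def kinds {k : ℕ} (g : Fin k → Bool) (n : Fin k → ℤ) (h : Bool) : ℕ :=
  ((Finset.univ.filter fun l => g l = h).image fun l => (red h (n l)).natAbs).card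

/-- The number of the squarefree `e ≤ X`, `e ≡ 1` modulo `m`, with the property `Q`. -/
noncomputable def count (m : ℕ) (Q : ℕ → Prop) (X : ℕ) : ℕ :=
  ((Finset.Icc 1 X).filter fun e => (Squarefree e ∧ e % m = 1 % m) ∧ Q e).card

/-- The proportion of the `e ≤ X` with the property `Q` among the squarefree `e ≤ X`, `e ≡ 1` modulo `m`. -/
noncomputable def proportion (m : ℕ) (Q : ℕ → Prop) (X : ℕ) : ℝ :=
  (count m Q X : ℝ) / (count m (fun _ => True) X : ℝ)

/-! ### The fields -/

/-- The field `ℚ(√-p, √e : e ∈ G)` in an algebraic closure of `ℚ`, `p = 7` or `3`. -/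
noncomputable def Compositum (g : Bool) (G : Set ℕ) : IntermediateField ℚ (AlgebraicClosure ℚ) :=
  adjoin ℚ {x : AlgebraicClosure ℚ | x ^ 2 = -(ram g : AlgebraicClosure ℚ) ∨
    ∃ e ∈ G, x ^ 2 = (e : AlgebraicClosure ℚ)}

/-- All the points of `E` over `K` have finite order. -/
def AllTorsion (K : Type) [Field K] (E : WeierstrassCurve K) : Prop :=
  ∀ P : E.toAffine.Point, IsOfFinAddOrder P

/-! ### The proof -/

open Pool.Agent.L0h2.XP
open Pool.Agent.L0h86.XF (RP DnF Cv Good tt_cv)
open Pool.Agent.L0h1.CM (TT2)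

lemma ram_eq (g : Bool) : ram g = Pool.Agent.L0h86.XF.q g := rfl

lemma red_eq (g : Bool) (n : ℤ) : red g n = rdp (Pool.Agent.L0h86.XF.q g) n := rfl

lemma root_iff {g : Bool} {n : ℤ} (hn : Squarefree n) : RootPlus g n ↔ RP g n := by
  cases g
  · rw [RPf hn]
    exact Iff.rfl
  · rw [RPt hn]
    exact Iff.rfl

lemma red_abs {g : Bool} {n : ℤ} (hn : Squarefree n) : (red g n).natAbs = DnF g n := by
  cases g
  · rw [Dnf hn]
    rfl
  · rw [Dnt hn]
    rfl

lemma tt_iff (g : Bool) (n : ℤ) : TrivialTwo g n ↔ TT2 (Cv g n) := by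
  cases g
  · exact Iff.rfl
  · exact Iff.rfl

lemma curve_eq (K : Type) [Field K] (g : Bool) (n : ℤ) :
    curve K g n = Pool.Agent.L0h74.NF.Sw K (ca g n) (cb g n) := by
  cases g
  · show (⟨0, 0, 0, -35 * (n : K) ^ 2, -98 * (n : K) ^ 3⟩ : WeierstrassCurve K) =
      Pool.Agent.L0h74.NF.Sw K (-35 * n ^ 2) (-98 * n ^ 3)
    unfold Pool.Agent.L0h74.NF.Sw
    push_cast
    rfl
  · show (⟨0, 0, 0, 0, (n : K) ^ 3⟩ : WeierstrassCurve K) =
      Pool.Agent.L0h74.NF.Sw K 0 (n ^ 3)
    unfold Pool.Agent.L0h74.NF.Sw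
    push_cast
    rfl

lemma layer_iff {k : ℕ} {g : Fin k → Bool} {n : Fin k → ℤ} (T : Finset ℕ) :
    Layer g n T ↔ Lay g n T := by
  constructor
  · intro h
    exact ⟨h.numbers, h.coprime, fun S hS l => (tt_iff _ _).1 (h.trivial S hS l)⟩
  · intro h
    exact ⟨h.el, h.co, fun S hS l => (tt_iff _ _).2 (h.gd S hS l)⟩

lemma conv {K : Type} [Field K] [NumberField K] {a b : ℤ}
    (h : Pool.Agent.L0h74.NF.OrdRank (Pool.Agent.L0h74.NF.Sw K a b) ∧
      ∀ P : (Pool.Agent.L0h74.NF.Sw K a b).toAffine.Point, IsOfFinAddOrder P) :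
    OrderRankZero K (Pool.Agent.L0h74.NF.Sw K a b) := by
  obtain ⟨⟨h1, h2, h3⟩, h0⟩ := h
  refine ⟨h0, h1, h2, fun M hM => ?_⟩
  obtain ⟨h4, h5⟩ := h3 M hM
  refine ⟨h4, fun U f a1 a2 a3 a4 a5 a6 => ?_⟩
  have h6 := h5 U f a1 a2 a3 a4 a5 a6
  refine ⟨h6, ?_⟩
  rw [h1, analyticOrderNatAt, h6]
  exact Even.zero

lemma dn_one (g : Bool) : DnF g 1 = 1 := by
  rw [← red_abs squarefree_one]
  cases g <;> norm_num [red, ram]

theorem one (g : Bool) : TrivialTwo g 1 := by
  have hR : RP g 1 := by
    rw [← root_iff squarefree_one]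
    cases g <;> norm_num [RootPlus, red, ram]
  rw [tt_iff, tt_cv hR, dn_one]
  cases g
  · have h := Pool.Agent.L0h1.EV.tt_mU Pool.Agent.L0h75.EV.t_U1 Pool.Agent.L0h75.EV.t_UE (D := 1)
      squarefree_one (by norm_num)
    refine h.2 ?_
    have he : IsEmpty (Pool.Agent.L0h1.EV.gens 1) := by
      refine ⟨fun x => ?_⟩
      obtain ⟨x, -, hp, h | h | h | h⟩ := x
      · refine hp.not_isUnit (isUnit_of_dvd_one ?_)
        have h1 := h.1
        rwa [Nat.cast_one] at h1
      · exact absurd h.1 (by norm_num)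
      · exact absurd h.1 (by norm_num)
      · exact absurd h.1 (by norm_num)
    rw [Matrix.det_isEmpty]
    exact one_ne_zero
  · show Pool.Agent.L0h74.E3.Cr 1
    rw [Pool.Agent.L0h74.E3.cr_odd (by norm_num)]
    have he : IsEmpty (Pool.Agent.L0h86.F3.pset 1) := by
      refine ⟨fun x => ?_⟩
      obtain ⟨x, -, hp, h, -⟩ := x
      refine hp.not_isUnit (isUnit_of_dvd_one ?_)
      rwa [Nat.cast_one] at h
    rw [Matrix.det_isEmpty]
    exact one_ne_zero

lemma prop_eq (m : ℕ) (Q : ℕ → Prop) (X : ℕ) :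
    proportion m Q X = (num m Q X : ℝ) / (num m (fun _ => True) X : ℝ) := rfl

lemma kinds_eq {k : ℕ} (g : Fin k → Bool) (n : Fin k → ℤ) (hn : ∀ l, Squarefree (n l)) (h : Bool) :
    kinds g n h = ncl g n h := by
  unfold kinds ncl
  congr 1
  exact Finset.image_congr fun l _ => red_abs (hn l)

/-- **Q1 for finitely many curves at once over the number fields in generic towers.** -/
theorem result :
    (∀ g, RootPlus g 1 ∧ TrivialTwo g 1) ∧ (0.4194 < c₂ ∧ c₂ < 0.4195) ∧
    ∀ (k : ℕ) (g : Fin k → Bool) (n : Fin k → ℤ),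
      (∀ l, Squarefree (n l) ∧ RootPlus (g l) (n l)) →
      ((∀ l, TrivialTwo (g l) (n l)) → Layer g n ∅) ∧
      (∀ T : Finset ℕ, Layer g n T →
        (∀ m : ℕ, 0 < m → 84 ∣ m → (∀ l, n l ∣ (m : ℤ)) → (∀ e ∈ T, e ∣ m) →
          Tendsto (proportion m fun e => Layer g n (insert e T)) atTop
            (𝓝 (share (kinds g n false * 2 ^ T.card) * share (kinds g n true * 2 ^ T.card)))) ∧
        (∀ q : ℕ → ℕ, (∀ i, 0 < q i) → ∃ e : ℕ → ℕ, StrictMono e ∧ (∀ i, ∀ x ∈ T, x < e i) ∧
          (∀ i, e i ≡ 1 [MOD q i]) ∧ ∀ S : Finset ℕ, Layer g n (T ∪ S.image e))) ∧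
      ∀ G : Set ℕ, (∀ T : Finset ℕ, (T : Set ℕ) ⊆ G → Layer g n T) → ∀ l,
        (∀ (K : Type) [Field K] [NumberField K], Nonempty (K →+* Compositum (g l) G) →
          OrderRankZero K (curve K (g l) (n l))) ∧
        AllTorsion (Compositum (g l) G) (curve (Compositum (g l) G) (g l) (n l)) := by
  refine ⟨fun g => ⟨?_, one g⟩, Pool.Agent.Y948.CQ.t_C2.2.2.2, fun k g n hn => ?_⟩
  · cases g <;> norm_num [RootPlus, red, ram]
  have hsq := fun l => (hn l).1
  have hRP := fun l => (root_iff (hn l).1).1 (hn l).2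
  refine ⟨fun h => (layer_iff _).2 (lay_empty fun l => (tt_iff _ _).1 (h l)), fun T hT => ⟨?_, ?_⟩,
    fun G hG l => ?_⟩
  · intro m hm h84 hnm hTm
    have key := ext_lawR hsq hRP ((layer_iff T).1 hT) hm h84
      (fun l => Int.natCast_dvd_natCast.1 (Int.natAbs_dvd.2 (hnm l))) hTm
    rw [kinds_eq g n hsq, kinds_eq g n hsq]
    refine key.congr fun X => ?_
    rw [prop_eq]
    congr 2
    exact le_antisymm (num_le (fun e _ _ _ he => (layer_iff _).2 he) X)
      (num_le (fun e _ _ _ he => (layer_iff _).1 he) X)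
  · intro q hq
    obtain ⟨e, h1, h2, h3, h4⟩ := seqR hsq hRP ((layer_iff T).1 hT) hq
    exact ⟨e, h1, h2, h3, fun S => (layer_iff _).2 (h4 S)⟩
  · have key : ∀ (K : Type) [Field K] [NumberField K], (K →+* Compositum (g l) G) →
        Pool.Agent.L0h74.NF.OrdRank (Pool.Agent.L0h74.NF.Sw K (ca (g l) (n l)) (cb (g l) (n l))) ∧
        ∀ P : (Pool.Agent.L0h74.NF.Sw K (ca (g l) (n l)) (cb (g l) (n l))).toAffine.Point,
          IsOfFinAddOrder P := fun K _ _ φ =>
      tower hsq hRP (fun T hT => (layer_iff T).1 (hG T hT)) l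
        ((Compositum (g l) G).val.toRingHom.comp φ) (fun y => (φ y).2)
    refine ⟨fun K _ _ hK => ?_, ?_⟩
    · obtain ⟨φ⟩ := hK
      rw [curve_eq]
      exact conv (key K φ)
    · have ha := Pool.Agent.L0h2.P.TOW.alg_of (Ω := Compositum (g l) G)
        (Compositum (g l) G).val.toRingHom
      rw [curve_eq]
      exact Pool.Agent.L0h2.P.TOW.tors_alg (Ω := Compositum (g l) G) _ _
        (fun K _ _ φ => (key K φ).2)

end Pool.Agent.Results.MP_413b36_nt.GenericTowers
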