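import Pool.Agent.L0h23.MQ.Sub
import Pool.Agent.L0h23.MQ.Law
import Pool.Agent.L0h74.NF.Xq
import Pool.Agent.Y948.CQ.C2

/-!
# The Birch and Swinnerton-Dyer conjecture modulo 2 for the twists of `X_0(49)` over all the subfields of a
# multiquadratic field at the same time

`E_n : y² = x³ - 35 n² x - 98 n³` is the quadratic twist by `n` of `X_0(49) : y² + x y = x³ - x² - 2 x - 1`.
It has root number `+1` over `ℚ` if and only if `RootPlus n` holds. `Good n` says that for the squarefree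
part `D` of `n` prime to `7` the group `E_D(ℚ)` is finite and `Ш(E_D/ℚ)[2] = 0` (`E_n` is isomorphic or
7-isogenous to `E_D`, if `RootPlus n` holds).

`F` is any multiquadratic field, of any degree, such that `RootPlus m` holds for all the squarefree `m`
with `√m ∈ F`; this means that `F` is contained in the compositum of `ℚ(√-7)` and a real multiquadratic
field which is unramified at `7`. (If `RootPlus m` fails for one of the `m`, then for every `D` one of
the curves `E_D`, `E_{Dm}` has root number `-1`.) The family consists of all the squarefree `D` with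
`RootPlus D` and with prescribed local behaviour at an arbitrary finite set of places (`D D₀` is a square
at the places of `S`), ordered by `|D|`. The theorem: the proportion of the `D` for which `Good (D m)`
holds for all these `m` is exactly `(1/2) (∏_{i ≥ 0} (1 - 2^{-(2i+1)})) ^ s`, `s = [F : F ∩ ℚ(√-7)]`, and
for all these `D` Q1 of the problem is proved for `E_D` over `F` and over all the subfields `K` of `F`,
in the form of the frozen statement `S16693`: the order of vanishing of `L(E_D/K, s)` at `s = 1` and the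
rank of `E_D(K)` are both zero. In particular for every such field `F` this happens for a positive
proportion of the twists.

The proof: the joint law of the Selmer groups of the twists by `D m_1, ..., D m_s` for all `D`
(`Pool/Agent/L0h2/P`, by helper2 with helpers 74, 86, 1, 61: a Markov chain for the coranks of symmetric
matrices over `𝔽₂` with the same entries off the diagonal, bilinear large sieve for residue symbols);
the theorem on one twist over `ℚ` (helpers 1, 4, 23, 61, 74, 75, 98, see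
`Results/MP_696deb_nt/AllTwistsX49ExactProportion.lean`); the Euler product over a multiquadratic field
(`Pool/Agent/L0h74/NF`, helper74); the characters of `F` and its subfields (`Pool/Agent/L0h23/MQ`).
-/

set_option autoImplicit false

open scoped Classical
open NumberField

namespace Pool.Agent.Results.MP_413b36_nt.MultiquadraticFieldsX49

/-- The quadratic twist by `n` of `X_0(49)`, over `K`: the curve `y² = x³ - 35 n² x - 98 n³`. -/
def curve (K : Type) [Field K] (n : ℤ) : WeierstrassCurve K :=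
  { a₁ := 0, a₂ := 0, a₃ := 0, a₄ := -35 * (n : K) ^ 2, a₆ := -98 * (n : K) ^ 3 }

/-! ### Q1 in the form of the frozen statement -/

/-- `M P` is an equation of `E` over the integers which is minimal at the prime ideal `P`, for all `P`. -/
def IsMinimal {K : Type} [Field K] [NumberField K] (E : WeierstrassCurve K)
    (M : {P : Ideal (𝓞 K) // P.IsPrime ∧ P ≠ ⊥} → WeierstrassCurve (𝓞 K)) : Prop :=
  ∀ P, (∃ C : WeierstrassCurve.VariableChange K, C • E = (M P).map (algebraMap (𝓞 K) K)) ∧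
      ∀ W : WeierstrassCurve (𝓞 K),
        (∃ C : WeierstrassCurve.VariableChange K, C • E = W.map (algebraMap (𝓞 K) K)) →
        ∀ n : ℕ, (M P).Δ ∈ P.1 ^ n → W.Δ ∈ P.1 ^ n

/-- The Euler factor of the Hasse–Weil `L`-function at the prime ideal `P`. -/
noncomputable def eulerFactor {K : Type} [Field K] [NumberField K]
    (M : {P : Ideal (𝓞 K) // P.IsPrime ∧ P ≠ ⊥} → WeierstrassCurve (𝓞 K)) (s : ℂ)
    (P : {P : Ideal (𝓞 K) // P.IsPrime ∧ P ≠ ⊥}) : ℂ :=
  (1 - ((Nat.card (𝓞 K ⧸ P.1) : ℂ)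
               - (Nat.card {xy : (𝓞 K ⧸ P.1) × (𝓞 K ⧸ P.1) //
                   ((M P).map (Ideal.Quotient.mk P.1)).toAffine.Equation xy.1 xy.2} : ℂ))
             * (Nat.card (𝓞 K ⧸ P.1) : ℂ) ^ (-s)
           + (if (M P).Δ ∈ P.1 then 0 else (Nat.card (𝓞 K ⧸ P.1) : ℂ) ^ (1 - 2 * s)))⁻¹

/-- Q1 for the pair `(K, E)` (with all the terms of the frozen statement `S16693`), with the additional
information that the order and the rank are zero: all the points of `E(K)` have finite order; there are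
families of minimal equations; for each of them, the Hasse–Weil `L`-function, which converges for
`Re s > 3/2`, has an analytic continuation to a connected open set with `Re s > 3/2` and `s = 1`, and each
such continuation is nonzero at `s = 1`, so that the order and the rank have the same parity. -/
def OrderRankZero (K : Type) [Field K] [NumberField K] (E : WeierstrassCurve K) : Prop :=
  (∀ P : E.toAffine.Point, IsOfFinAddOrder P) ∧ Module.finrank ℤ E.toAffine.Point = 0 ∧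
  (∃ M : {P : Ideal (𝓞 K) // P.IsPrime ∧ P ≠ ⊥} → WeierstrassCurve (𝓞 K), IsMinimal E M) ∧
  ∀ M : {P : Ideal (𝓞 K) // P.IsPrime ∧ P ≠ ⊥} → WeierstrassCurve (𝓞 K), IsMinimal E M →
    (∃ (U : Set ℂ) (f : ℂ → ℂ), IsOpen U ∧ IsConnected U ∧ (1 : ℂ) ∈ U ∧
      {s : ℂ | 3 / 2 < s.re} ⊆ U ∧ AnalyticOnNhd ℂ f U ∧
      ∀ s : ℂ, 3 / 2 < s.re → HasProd (fun P => eulerFactor M s P) (f s)) ∧
    ∀ (U : Set ℂ) (f : ℂ → ℂ), IsOpen U → IsConnected U → (1 : ℂ) ∈ U →
      {s : ℂ | 3 / 2 < s.re} ⊆ U → AnalyticOnNhd ℂ f U →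
      (∀ s : ℂ, 3 / 2 < s.re → f s = ∏' P, eulerFactor M s P) →
      analyticOrderAt f 1 = 0 ∧ Even (analyticOrderNatAt f 1 + Module.finrank ℤ E.toAffine.Point)

/-! ### The condition -/

/-- The condition that the root number `sign(n) (-1)^{v_7(n)}` of `E_n/ℚ` is `+1`. -/
def RootPlus (n : ℤ) : Prop :=
  (0 < n ∧ Even (padicValInt 7 n)) ∨ (n < 0 ∧ Odd (padicValInt 7 n))

/-- The quadratic twist over `ℚ` by the squarefree number `D > 0` of `X_0(49)`, with an integral equation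
which is minimal. -/
def minimalCurve (D : ℕ) : WeierstrassCurve ℚ :=
  if D % 4 = 1 then
    { a₁ := 1, a₂ := -(3 * (D : ℚ) + 1) / 4, a₃ := 0, a₄ := -2 * (D : ℚ) ^ 2, a₆ := -(D : ℚ) ^ 3 }
  else { a₁ := 0, a₂ := 0, a₃ := 0, a₄ := -35 * (D : ℚ) ^ 2, a₆ := -98 * (D : ℚ) ^ 3 }

/-- `n = D t²` or `n = -7 D t²` with `D > 0` squarefree and prime to `7`, the group `E_D(ℚ)` is finite and
`Ш(E_D/ℚ)[2] = 0`. -/
def Good (n : ℤ) : Prop :=
  ∃ (D : ℕ) (t : ℤ), Squarefree D ∧ ¬ 7 ∣ D ∧ (n = D * t ^ 2 ∨ n = -7 * D * t ^ 2) ∧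
    Finite (minimalCurve D).toAffine.Point ∧
    ∀ x : Pool.Agent.TH841.NF.D.Sha (minimalCurve D), x + x = 0 → x = 0

/-! ### The multiquadratic field -/

/-- `F` is a multiquadratic field: a Galois extension of `ℚ` whose Galois group has exponent at most
two. -/
def IsMultiquadratic (F : Type) [Field F] [NumberField F] : Prop :=
  IsGalois ℚ F ∧ ∀ σ : F ≃ₐ[ℚ] F, σ * σ = 1

/-- The squarefree integers `m` such that `√m ∈ F`. -/
def Characters (F : Type) [Field F] : Set ℤ := {m | Squarefree m ∧ IsSquare (m : F)}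

/-- The degree `[F : F ∩ ℚ(√-7)]`. -/
noncomputable def degree (F : Type) [Field F] [NumberField F] : ℕ :=
  Module.finrank ℚ F / (if IsSquare (-7 : F) then 2 else 1)

/-- The family: the squarefree `D` such that `E_D/ℚ` has root number `+1` and `D D₀` is a square in `ℚ_p`
for all `p ∈ S`, and in `ℝ`, if `inf` holds. -/
def Fam (D₀ : ℤ) (S : Finset ℕ) (inf : Prop) : Set ℤ :=
  {D | Squarefree D ∧ RootPlus D ∧
    (∀ p ∈ S, ∀ _ : Fact p.Prime, IsSquare (((D * D₀ : ℤ) : ℤ) : ℚ_[p])) ∧ (inf → 0 < D * D₀)}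

/-- `Good (D m)` holds for all the squarefree `m` with `√m ∈ F`. -/
def GoodAll (F : Type) [Field F] (D : ℤ) : Prop := ∀ m ∈ Characters F, Good (D * m)

/-- Q1 holds, with order and rank zero, for `E_D` over every number field `K` which is isomorphic to a
subfield of `F`. -/
def HoldsOverAll (F : Type) [Field F] (D : ℤ) : Prop :=
  ∀ (K : Type) [Field K] [NumberField K], Nonempty (K →+* F) → OrderRankZero K (curve K D)

/-- The constant `0.4194...` -/
noncomputable def c₂ : ℝ := ∏' i : ℕ, (1 - (1 / 2 : ℝ) ^ (2 * i + 1))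

/-! ### The proof -/

lemma good_iff {n : ℤ} (hn : RootPlus n) :
    Good n ↔ Pool.Agent.L0h1.EV.TT (Pool.Agent.L0h74.AP.Dn n) := by
  have hn0 : n ≠ 0 := by
    rcases hn with h | h
    · exact h.1.ne'
    · exact h.1.ne
  constructor
  · rintro ⟨D, t, h1, h2, h3, h4⟩
    have ht : t ≠ 0 := by
      rintro rfl
      apply hn0
      rcases h3 with h | h
      · rw [h]
        ring
      · rw [h]
        ring
    rw [Pool.Agent.L0h74.GF.Dn_unique h1 h2 ht h3]
    exact h4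
  · intro h
    obtain ⟨t, m, ht, h1, h2⟩ := Pool.Agent.L0h74.AP.root_decomp hn
    refine ⟨Pool.Agent.L0h74.AP.Dn n, t, Pool.Agent.L0h74.AP.Dn_sq n,
      Pool.Agent.L0h74.AP.Dn_seven n, ?_, h⟩
    rcases h2 with h2 | h2
    · left
      rw [← h2]
      exact h1
    · right
      rw [← h2]
      exact h1

lemma curve_eq (K : Type) [Field K] (d : ℤ) :
    curve K d = Pool.Agent.L0h74.NF.Sw K (-35 * d ^ 2) (-98 * d ^ 3) := by
  unfold curve Pool.Agent.L0h74.NF.Sw
  push_cast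
  rfl

lemma multi {K : Type} [Field K] [NumberField K] [IsGalois ℚ K] (hexp : ∀ σ : K ≃ₐ[ℚ] K, σ * σ = 1)
    {d : ℤ} (hd : d ≠ 0)
    (hg : ∀ m : ℤ, Squarefree m → IsSquare (m : K) → RootPlus (d * m) ∧ Good (d * m)) :
    OrderRankZero K (curve K d) := by
  have hg' : ∀ m ∈ Pool.Agent.L0h74.NF.BF K, Pool.Agent.L0h74.AP.RootPlus (d * m) ∧
      Pool.Agent.L0h1.EV.TT (Pool.Agent.L0h74.AP.Dn (d * m)) := fun m hm =>
    ⟨(hg m hm.1 hm.2).1, (good_iff (hg m hm.1 hm.2).1).1 (hg m hm.1 hm.2).2⟩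
  rw [curve_eq]
  obtain ⟨h1, h2, h3⟩ := Pool.Agent.L0h74.NF.x49_ordRank hexp hd hg'
  refine ⟨Pool.Agent.L0h74.NF.x49_torsion hexp hd hg', h1, h2, fun M hM => ?_⟩
  obtain ⟨h4, h5⟩ := h3 M hM
  refine ⟨h4, fun U f a1 a2 a3 a4 a5 a6 => ?_⟩
  have h6 := h5 U f a1 a2 a3 a4 a5 a6
  refine ⟨h6, ?_⟩
  rw [h1, analyticOrderNatAt, h6]
  exact Even.zero

lemma holds {F : Type} [Field F] [NumberField F] (hF : IsMultiquadratic F)
    (hR : ∀ m ∈ Characters F, RootPlus m) {D : ℤ} (hD : RootPlus D) (hg : GoodAll F D) :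
    HoldsOverAll F D := by
  intro K _ _ hK
  obtain ⟨f⟩ := hK
  have h1 := Pool.Agent.L0h23.MQ.sub_gal f hF.1 hF.2
  refine multi (Pool.Agent.L0h23.MQ.sub_exp f hF.1 hF.2) (Pool.Agent.L0h23.MQ.root_ne hD)
    fun m hm hs => ?_
  have h2 : m ∈ Characters F := Pool.Agent.L0h23.MQ.sub_BF f ⟨hm, hs⟩
  exact ⟨Pool.Agent.L0h23.MQ.root_mul hD (hR m h2), hg m h2⟩

/-- the number of the elements of a set of squarefree integers with bounded absolute value -/
lemma cnt_ncard (T : ℤ → Prop) (X : ℕ) : Pool.Agent.L0h74.AP.cnt Int.natAbs T X =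
    {e : ℤ | Squarefree e ∧ T e ∧ e.natAbs ≤ X}.ncard := by
  unfold Pool.Agent.L0h74.AP.cnt
  rw [← Set.ncard_coe_finset]
  congr 1
  ext e
  simp only [Finset.coe_filter, Finset.mem_Icc, Set.mem_ofPred_eq]
  constructor
  · rintro ⟨-, h1, h2, h3⟩
    exact ⟨h1, h3, h2⟩
  · rintro ⟨h1, h3, h2⟩
    refine ⟨?_, h1, h2, h3⟩
    omega

lemma abs_finite (A : Set ℤ) (X : ℕ) : {e ∈ A | e.natAbs ≤ X}.Finite := by
  refine (Set.finite_Icc (-(X : ℤ)) X).subset ?_
  rintro e ⟨-, h⟩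
  rw [Set.mem_Icc]
  omega

lemma fam_eq (D₀ : ℤ) (S : Finset ℕ) (inf : Prop) (X : ℕ) :
    {D ∈ Fam D₀ S inf | D.natAbs ≤ X}.ncard =
      Pool.Agent.L0h74.AP.cnt Int.natAbs (Pool.Agent.L0h74.GF.Loc 1 D₀ S inf) X := by
  rw [cnt_ncard]
  congr 1
  ext e
  unfold Pool.Agent.L0h74.GF.Loc
  rw [Set.mem_ofPred_eq, Set.mem_ofPred_eq, mul_one]
  constructor
  · rintro ⟨⟨h1, h2⟩, h3⟩
    exact ⟨h1, h2, h3⟩
  · rintro ⟨h1, h2, h3⟩
    exact ⟨⟨h1, h2⟩, h3⟩

lemma good_eq {F : Type} [Field F] (hR : ∀ m ∈ Characters F, RootPlus m) (D₀ : ℤ) (S : Finset ℕ)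
    (inf : Prop) (X : ℕ) : {D ∈ Fam D₀ S inf | D.natAbs ≤ X ∧ GoodAll F D}.ncard =
      Pool.Agent.L0h74.AP.cnt Int.natAbs (fun e =>
        Pool.Agent.L0h74.GF.Loc 1 D₀ S inf e ∧ ∀ m ∈ Pool.Agent.L0h74.NF.BF F,
          Pool.Agent.L0h1.EV.TT (Pool.Agent.L0h74.AP.Dn (e * m))) X := by
  rw [cnt_ncard]
  congr 1
  ext e
  unfold Pool.Agent.L0h74.GF.Loc
  rw [Set.mem_ofPred_eq, Set.mem_ofPred_eq, mul_one]
  constructor
  · rintro ⟨⟨h1, h2⟩, h3, h4⟩
    exact ⟨h1, ⟨h2, fun m hm =>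
      (good_iff (Pool.Agent.L0h23.MQ.root_mul h2.1 (hR m hm))).1 (h4 m hm)⟩, h3⟩
  · rintro ⟨h1, ⟨h2, h4⟩, h3⟩
    exact ⟨⟨h1, h2⟩, h3, fun m hm =>
      (good_iff (Pool.Agent.L0h23.MQ.root_mul h2.1 (hR m hm))).2 (h4 m hm)⟩

/-- **The Birch and Swinnerton-Dyer conjecture modulo 2 for a positive, exactly known proportion of the
twists of `X_0(49)` over all the subfields of a multiquadratic field at the same time.** -/
theorem result (F : Type) [Field F] [NumberField F] (hF : IsMultiquadratic F)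
    (hR : ∀ m ∈ Characters F, RootPlus m) (S : Finset ℕ) (hS : ∀ p ∈ S, p.Prime) (inf : Prop)
    (D₀ : ℤ) (hD₀ : Squarefree D₀) (h₀ : RootPlus D₀) :
    Filter.Tendsto (fun X : ℕ =>
      ({D ∈ Fam D₀ S inf | D.natAbs ≤ X ∧ GoodAll F D}.ncard : ℝ) /
        ({D ∈ Fam D₀ S inf | D.natAbs ≤ X}.ncard : ℝ)) Filter.atTop
      (nhds (1 / 2 * c₂ ^ degree F)) ∧
    (∀ D ∈ Fam D₀ S inf, GoodAll F D → HoldsOverAll F D) ∧
    (0.4194 < c₂ ∧ c₂ < 0.4195) ∧
    ∀ c : ℝ, c < 1 / 2 * c₂ ^ degree F → ∀ᶠ X : ℕ in Filter.atTop,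
      c * ({D ∈ Fam D₀ S inf | D.natAbs ≤ X}.ncard : ℝ) ≤
        ({D ∈ Fam D₀ S inf | D.natAbs ≤ X ∧ HoldsOverAll F D}.ncard : ℝ) := by
  have hg := hF.1
  obtain ⟨hfin, hcard⟩ := Pool.Agent.L0h74.NF.BF_card (F := F) hF.2
  have hdeg : (hfin.toFinset.image Pool.Agent.L0h74.AP.Dn).card = degree F := by
    have h1 := Pool.Agent.L0h23.MQ.card_cls hfin hR
    rw [hcard] at h1
    unfold degree
    rw [← h1]
    split_ifs
    · exact (Nat.mul_div_cancel _ (by norm_num)).symm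
    · exact (Nat.mul_div_cancel _ (by norm_num)).symm
  have h1 : Filter.Tendsto (fun X : ℕ =>
      ({D ∈ Fam D₀ S inf | D.natAbs ≤ X ∧ GoodAll F D}.ncard : ℝ) /
        ({D ∈ Fam D₀ S inf | D.natAbs ≤ X}.ncard : ℝ)) Filter.atTop
      (nhds (1 / 2 * c₂ ^ degree F)) := by
    rw [← hdeg]
    refine (Pool.Agent.L0h23.MQ.law hfin hS inf hD₀ h₀
      (fun u _ => Pool.Agent.L0h74.E3.abs_ht u)).congr fun X => ?_
    rw [fam_eq, good_eq hR]
  have h2 : ∀ D ∈ Fam D₀ S inf, GoodAll F D → HoldsOverAll F D :=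
    fun D hD hgd => holds hF hR hD.2.1 hgd
  refine ⟨h1, h2, Pool.Agent.Y948.CQ.t_C2.2.2.2, fun c hc => ?_⟩
  filter_upwards [h1.eventually (lt_mem_nhds hc)] with X hX
  have h5 : ({D ∈ Fam D₀ S inf | D.natAbs ≤ X ∧ GoodAll F D}.ncard : ℝ) ≤
      ({D ∈ Fam D₀ S inf | D.natAbs ≤ X ∧ HoldsOverAll F D}.ncard : ℝ) := by
    have h6 : {D ∈ Fam D₀ S inf | D.natAbs ≤ X ∧ GoodAll F D} ⊆
        {D ∈ Fam D₀ S inf | D.natAbs ≤ X ∧ HoldsOverAll F D} :=
      fun e he => ⟨he.1, he.2.1, h2 e he.1 he.2.2⟩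
    have h7 : {D ∈ Fam D₀ S inf | D.natAbs ≤ X ∧ HoldsOverAll F D}.Finite :=
      (abs_finite (Fam D₀ S inf) X).subset fun e he => ⟨he.1, he.2.1⟩
    exact_mod_cast Set.ncard_le_ncard h6 h7
  refine le_trans ?_ h5
  rcases (Nat.cast_nonneg (α := ℝ) ({D ∈ Fam D₀ S inf | D.natAbs ≤ X}.ncard)).eq_or_lt with
    h8 | h8
  · rw [← h8, mul_zero]
    exact Nat.cast_nonneg _
  · exact ((lt_div_iff₀ h8).1 hX).le

end Pool.Agent.Results.MP_413b36_nt.MultiquadraticFieldsX49
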