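import Pool.Agent.L0h74.NF.Xq
import Pool.Agent.Y948.CQ.C2

/-!
# The Birch and Swinnerton-Dyer conjecture modulo 2 for the twists of `X_0(49)` over quadratic fields

`E_n : y² = x³ - 35 n² x - 98 n³` is the quadratic twist by `n` of `X_0(49) : y² + x y = x³ - x² - 2 x - 1`.
It has root number `+1` over `ℚ` if and only if `RootPlus n` holds. `Good n` says that for the squarefree
part `D` of `n` prime to `7` the group `E_D(ℚ)` is finite and `Ш(E_D/ℚ)[2] = 0` (`E_n` is isomorphic or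
7-isogenous to `E_D`, if `RootPlus n` holds).

Let `d` be any integer with the properties `RootPlus` and `Good`. The family consists of all the quadratic
fields `K = ℚ(√e)` with `W(E_d/K) = +1` and with prescribed local behaviour at an arbitrary finite set of
places (given by another such field `ℚ(√e₀)`), ordered by the absolute value of the discriminant. The
proportion of those for which `Good (e d)` holds is exactly `(1/2) ∏_{i ≥ 0} (1 - 2^{-(2i+1)})`, and for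
all these fields Q1 of the problem is proved for the pair `(K, E_d)`, in the form of the frozen statement
`S16693`: the order of vanishing of `L(E_d/K, s)` at `s = 1` and the rank of `E_d(K)` are both zero. So this
is the case for at least `20.97%` of the fields `K` of the family. (The field `ℚ` is counted as `ℚ(√1)`.)

The proof: `Pool/Agent/L0h74/NF` (`Kum`, `Spl`: the splitting of the primes in a multiquadratic field;
`Ge`: the Euler product over it is the product of those of the twists, `Mm`, `En`, `Ex`: the independence of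
the minimal equations and the continuation; `Rk`: the ranks; `X49`, `Xq`: the twists of `X_0(49)`), the
density theorem in `Pool/Agent/L0h74/AP`, `GF`, and the theorem on the twists over `ℚ` (helpers 1, 4, 23, 61, 74, 75, 98),
see `Results/MP_696deb_nt/AllTwistsX49ExactProportion.lean`.
-/

set_option autoImplicit false

open scoped Classical
open NumberField IntermediateField

namespace Pool.Agent.Results.MP_413b36_nt.QuadraticFieldsX49

/-- The quadratic twist by `n` of `X_0(49)`, over `K`: the curve `y² = x³ - 35 n² x - 98 n³`. -/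
def curve (K : Type) [Field K] (n : ℤ) : WeierstrassCurve K :=
  { a₁ := 0, a₂ := 0, a₃ := 0, a₄ := -35 * (n : K) ^ 2, a₆ := -98 * (n : K) ^ 3 }

/-! ### Q1 in the form of the frozen statement -/

/-- `M P` is an equation of `E` over the integers which is minimal at the prime ideal `P`, for all `P`. -/
def IsMinimal {K : Type} [Field K] [NumberField K] (E : WeierstrassCurve K)
    (M : {P : Ideal (𝓞 K) // P.IsPrime ∧ P ≠ ⊥} → WeierstrassCurve (𝓞 K)) : Prop :=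
  ∀ P, (∃ C : WeierstrassCurve.VariableChange K, C • E = (M P).map (algebraMap (𝓞 K) K)) ∧
      ∀ W : WeierstrassCurve (𝓞 K),
        (∃ C : WeierstrassCurve.VariableChange K, C • E = W.map (algebraMap (𝓞 K) K)) →
        ∀ n : ℕ, (M P).Δ ∈ P.1 ^ n → W.Δ ∈ P.1 ^ n

/-- The Euler factor of the Hasse–Weil `L`-function at the prime ideal `P`. -/
noncomputable def eulerFactor {K : Type} [Field K] [NumberField K]
    (M : {P : Ideal (𝓞 K) // P.IsPrime ∧ P ≠ ⊥} → WeierstrassCurve (𝓞 K)) (s : ℂ)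
    (P : {P : Ideal (𝓞 K) // P.IsPrime ∧ P ≠ ⊥}) : ℂ :=
  (1 - ((Nat.card (𝓞 K ⧸ P.1) : ℂ)
               - (Nat.card {xy : (𝓞 K ⧸ P.1) × (𝓞 K ⧸ P.1) //
                   ((M P).map (Ideal.Quotient.mk P.1)).toAffine.Equation xy.1 xy.2} : ℂ))
             * (Nat.card (𝓞 K ⧸ P.1) : ℂ) ^ (-s)
           + (if (M P).Δ ∈ P.1 then 0 else (Nat.card (𝓞 K ⧸ P.1) : ℂ) ^ (1 - 2 * s)))⁻¹

/-- Q1 for the pair `(K, E)` (with all the terms of the frozen statement `S16693`), with the additional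
information that the order and the rank are zero: all the points of `E(K)` have finite order; there are
families of minimal equations; for each of them, the Hasse–Weil `L`-function, which converges for
`Re s > 3/2`, has an analytic continuation to a connected open set with `Re s > 3/2` and `s = 1`, and each
such continuation is nonzero at `s = 1`, so that the order and the rank have the same parity. -/
def OrderRankZero (K : Type) [Field K] [NumberField K] (E : WeierstrassCurve K) : Prop :=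
  (∀ P : E.toAffine.Point, IsOfFinAddOrder P) ∧ Module.finrank ℤ E.toAffine.Point = 0 ∧
  (∃ M : {P : Ideal (𝓞 K) // P.IsPrime ∧ P ≠ ⊥} → WeierstrassCurve (𝓞 K), IsMinimal E M) ∧
  ∀ M : {P : Ideal (𝓞 K) // P.IsPrime ∧ P ≠ ⊥} → WeierstrassCurve (𝓞 K), IsMinimal E M →
    (∃ (U : Set ℂ) (f : ℂ → ℂ), IsOpen U ∧ IsConnected U ∧ (1 : ℂ) ∈ U ∧
      {s : ℂ | 3 / 2 < s.re} ⊆ U ∧ AnalyticOnNhd ℂ f U ∧
      ∀ s : ℂ, 3 / 2 < s.re → HasProd (fun P => eulerFactor M s P) (f s)) ∧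
    ∀ (U : Set ℂ) (f : ℂ → ℂ), IsOpen U → IsConnected U → (1 : ℂ) ∈ U →
      {s : ℂ | 3 / 2 < s.re} ⊆ U → AnalyticOnNhd ℂ f U →
      (∀ s : ℂ, 3 / 2 < s.re → f s = ∏' P, eulerFactor M s P) →
      analyticOrderAt f 1 = 0 ∧ Even (analyticOrderNatAt f 1 + Module.finrank ℤ E.toAffine.Point)

/-! ### The condition -/

/-- The condition that the root number `sign(n) (-1)^{v_7(n)}` of `E_n/ℚ` is `+1`. -/
def RootPlus (n : ℤ) : Prop :=
  (0 < n ∧ Even (padicValInt 7 n)) ∨ (n < 0 ∧ Odd (padicValInt 7 n))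

/-- The quadratic twist over `ℚ` by the squarefree number `D > 0` of `X_0(49)`, with an integral equation
which is minimal. -/
def minimalCurve (D : ℕ) : WeierstrassCurve ℚ :=
  if D % 4 = 1 then
    { a₁ := 1, a₂ := -(3 * (D : ℚ) + 1) / 4, a₃ := 0, a₄ := -2 * (D : ℚ) ^ 2, a₆ := -(D : ℚ) ^ 3 }
  else { a₁ := 0, a₂ := 0, a₃ := 0, a₄ := -35 * (D : ℚ) ^ 2, a₆ := -98 * (D : ℚ) ^ 3 }

/-- `n = D t²` or `n = -7 D t²` with `D > 0` squarefree and prime to `7`, the group `E_D(ℚ)` is finite and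
`Ш(E_D/ℚ)[2] = 0`. -/
def Good (n : ℤ) : Prop :=
  ∃ (D : ℕ) (t : ℤ), Squarefree D ∧ ¬ 7 ∣ D ∧ (n = D * t ^ 2 ∨ n = -7 * D * t ^ 2) ∧
    Finite (minimalCurve D).toAffine.Point ∧
    ∀ x : Pool.Agent.TH841.NF.D.Sha (minimalCurve D), x + x = 0 → x = 0

/-! ### The families of quadratic fields -/

/-- The absolute value of the discriminant of `ℚ(√e)`, for squarefree `e`. -/
def absDisc (e : ℤ) : ℕ := if e % 4 = 1 then e.natAbs else 4 * e.natAbs

/-- The family: the squarefree `e` such that `W(E_d/K) = W(E_d/ℚ) W(E_{de}/ℚ)` is `+1` for `K = ℚ(√e)`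
(if `W(E_d/ℚ) = +1`), and such that the algebras `K ⊗ ℚ_p` and `ℚ(√e₀) ⊗ ℚ_p` are isomorphic for
all `p ∈ S` (that is, `e e₀` is a square in `ℚ_p`), and `K ⊗ ℝ` and `ℚ(√e₀) ⊗ ℝ`, if `inf` holds. -/
def Fam (d e₀ : ℤ) (S : Finset ℕ) (inf : Prop) : Set ℤ :=
  {e | Squarefree e ∧ RootPlus (e * d) ∧
    (∀ p ∈ S, ∀ _ : Fact p.Prime, IsSquare (((e * e₀ : ℤ) : ℤ) : ℚ_[p])) ∧ (inf → 0 < e * e₀)}

/-- Q1 holds, with order and rank zero, for `E_d` over the field `ℚ(√e)` (over all the fields which are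
generated by a square root of `e`). -/
def HoldsOver (d e : ℤ) : Prop :=
  ∀ (K : Type) [Field K] [NumberField K] (x : K), x ^ 2 = (e : K) → ℚ⟮x⟯ = ⊤ →
    OrderRankZero K (curve K d)

/-! ### The proof -/

lemma good_iff {n : ℤ} (hn : RootPlus n) :
    Good n ↔ Pool.Agent.L0h1.EV.TT (Pool.Agent.L0h74.AP.Dn n) := by
  have hn0 : n ≠ 0 := by
    rcases hn with h | h
    · exact h.1.ne'
    · exact h.1.ne
  constructor
  · rintro ⟨D, t, h1, h2, h3, h4⟩
    have ht : t ≠ 0 := by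
      rintro rfl
      apply hn0
      rcases h3 with h | h
      · rw [h]
        ring
      · rw [h]
        ring
    rw [Pool.Agent.L0h74.GF.Dn_unique h1 h2 ht h3]
    exact h4
  · intro h
    obtain ⟨t, m, ht, h1, h2⟩ := Pool.Agent.L0h74.AP.root_decomp hn
    refine ⟨Pool.Agent.L0h74.AP.Dn n, t, Pool.Agent.L0h74.AP.Dn_sq n,
      Pool.Agent.L0h74.AP.Dn_seven n, ?_, h⟩
    rcases h2 with h2 | h2
    · left
      rw [← h2]
      exact h1
    · right
      rw [← h2]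
      exact h1

lemma curve_eq (K : Type) [Field K] (d : ℤ) :
    curve K d = Pool.Agent.L0h74.NF.Sw K (-35 * d ^ 2) (-98 * d ^ 3) := by
  unfold curve Pool.Agent.L0h74.NF.Sw
  push_cast
  rfl

lemma multi {K : Type} [Field K] [NumberField K] [IsGalois ℚ K] (hexp : ∀ σ : K ≃ₐ[ℚ] K, σ * σ = 1)
    {d : ℤ} (hd : d ≠ 0)
    (hg : ∀ m : ℤ, Squarefree m → IsSquare (m : K) → RootPlus (d * m) ∧ Good (d * m)) :
    OrderRankZero K (curve K d) := by
  have hg' : ∀ m ∈ Pool.Agent.L0h74.NF.BF K, Pool.Agent.L0h74.AP.RootPlus (d * m) ∧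
      Pool.Agent.L0h1.EV.TT (Pool.Agent.L0h74.AP.Dn (d * m)) := fun m hm =>
    ⟨(hg m hm.1 hm.2).1, (good_iff (hg m hm.1 hm.2).1).1 (hg m hm.1 hm.2).2⟩
  rw [curve_eq]
  obtain ⟨h1, h2, h3⟩ := Pool.Agent.L0h74.NF.x49_ordRank hexp hd hg'
  refine ⟨Pool.Agent.L0h74.NF.x49_torsion hexp hd hg', h1, h2, fun M hM => ?_⟩
  obtain ⟨h4, h5⟩ := h3 M hM
  refine ⟨h4, fun U f a1 a2 a3 a4 a5 a6 => ?_⟩
  have h6 := h5 U f a1 a2 a3 a4 a5 a6
  refine ⟨h6, ?_⟩
  rw [h1, analyticOrderNatAt, h6]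
  exact Even.zero

lemma quad {d e : ℤ} (he : Squarefree e) (hd : RootPlus d ∧ Good d)
    (hde : RootPlus (e * d) ∧ Good (e * d)) : HoldsOver d e := by
  intro K _ _ x hx hgen
  have hgal := Pool.Agent.L0h74.NF.quad_galois he.ne_zero hx hgen
  have hd0 : d ≠ 0 := by
    rcases hd.1 with h | h
    · exact h.1.ne'
    · exact h.1.ne
  refine multi (fun σ => Pool.Agent.L0h74.NF.quad_exp hx hgen σ) hd0 fun m h1 h2 => ?_
  rcases Pool.Agent.L0h74.NF.quad_BF he hx hgen (m := m) ⟨h1, h2⟩ with rfl | rfl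
  · rw [mul_one]
    exact hd
  · rw [mul_comm]
    exact hde

lemma disc_finite (A : Set ℤ) (X : ℕ) : {e ∈ A | absDisc e ≤ X}.Finite := by
  refine (Set.finite_Icc (-(X : ℤ)) X).subset ?_
  rintro e ⟨-, h⟩
  have h1 : e.natAbs ≤ X := by
    unfold absDisc at h
    split_ifs at h
    · exact h
    · omega
  rw [Set.mem_Icc]
  omega

lemma fam_eq (d e₀ : ℤ) (S : Finset ℕ) (inf : Prop) (X : ℕ) :
    {e ∈ Fam d e₀ S inf | absDisc e ≤ X}.ncard =
      Pool.Agent.L0h74.AP.cnt Pool.Agent.L0h74.AP.cnd (Pool.Agent.L0h74.GF.Loc d e₀ S inf) X := by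
  rw [Pool.Agent.L0h74.GF.cnt_ncard]
  congr 1
  ext e
  constructor
  · rintro ⟨⟨h1, h2⟩, h3⟩
    exact ⟨h1, h2, h3⟩
  · rintro ⟨h1, h2, h3⟩
    exact ⟨⟨h1, h2⟩, h3⟩

lemma good_eq (d e₀ : ℤ) (S : Finset ℕ) (inf : Prop) (X : ℕ) :
    {e ∈ Fam d e₀ S inf | absDisc e ≤ X ∧ Good (e * d)}.ncard =
      Pool.Agent.L0h74.AP.cnt Pool.Agent.L0h74.AP.cnd (fun e =>
        Pool.Agent.L0h74.GF.Loc d e₀ S inf e ∧
          Pool.Agent.L0h1.EV.TT (Pool.Agent.L0h74.AP.Dn (e * d))) X := by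
  rw [Pool.Agent.L0h74.GF.cnt_ncard]
  congr 1
  ext e
  constructor
  · rintro ⟨⟨h1, h2⟩, h3, h4⟩
    exact ⟨h1, ⟨h2, (good_iff h2.1).1 h4⟩, h3⟩
  · rintro ⟨h1, ⟨h2, h4⟩, h3⟩
    exact ⟨⟨h1, h2⟩, h3, (good_iff h2.1).2 h4⟩

/-- **The Birch and Swinnerton-Dyer conjecture modulo 2 for the twists of `X_0(49)` over at least `20.97%`
of the quadratic fields.** -/
theorem result (d : ℤ) (hd : RootPlus d) (hgd : Good d) (S : Finset ℕ) (hS : ∀ p ∈ S, p.Prime)
    (inf : Prop) (e₀ : ℤ) (he₀ : Squarefree e₀) (h₀ : RootPlus (e₀ * d)) :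
    Filter.Tendsto (fun X : ℕ =>
      ({e ∈ Fam d e₀ S inf | absDisc e ≤ X ∧ Good (e * d)}.ncard : ℝ) /
        ({e ∈ Fam d e₀ S inf | absDisc e ≤ X}.ncard : ℝ)) Filter.atTop
      (nhds ((∏' i : ℕ, (1 - (1 / 2 : ℝ) ^ (2 * i + 1))) / 2)) ∧
    (∀ e ∈ Fam d e₀ S inf, Good (e * d) → HoldsOver d e) ∧
    ∀ᶠ X : ℕ in Filter.atTop,
      0.2097 * ({e ∈ Fam d e₀ S inf | absDisc e ≤ X}.ncard : ℝ) ≤
        ({e ∈ Fam d e₀ S inf | absDisc e ≤ X ∧ HoldsOver d e}.ncard : ℝ) := by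
  have hd0 : d ≠ 0 := by
    rcases hd with h | h
    · exact h.1.ne'
    · exact h.1.ne
  obtain ⟨w, hw⟩ := Pool.Agent.L0h4.TA.exists_w
  have hq := Pool.Agent.L0h74.EV.qpw_of hw
  have h1 : Filter.Tendsto (fun X : ℕ =>
      ({e ∈ Fam d e₀ S inf | absDisc e ≤ X ∧ Good (e * d)}.ncard : ℝ) /
        ({e ∈ Fam d e₀ S inf | absDisc e ≤ X}.ncard : ℝ)) Filter.atTop
      (nhds ((∏' i : ℕ, (1 - (1 / 2 : ℝ) ^ (2 * i + 1))) / 2)) := by
    refine (Pool.Agent.L0h74.GF.dens hq hd0 hS inf he₀ h₀).congr fun X => ?_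
    rw [fam_eq, good_eq]
  have h2 : ∀ e ∈ Fam d e₀ S inf, Good (e * d) → HoldsOver d e := fun e he hg =>
    quad he.1 ⟨hd, hgd⟩ ⟨he.2.1, hg⟩
  refine ⟨h1, h2, ?_⟩
  have hc : (0.2097 : ℝ) < (∏' i : ℕ, (1 - (1 / 2 : ℝ) ^ (2 * i + 1))) / 2 := by
    have h3 := Pool.Agent.Y948.CQ.t_C2.2.2.2.1
    have h4 : (∏' i : ℕ, (1 - (1 / 2 : ℝ) ^ (2 * i + 1))) = Pool.Agent.Y703.CQ.c2 := rfl
    rw [h4]
    norm_num at h3 ⊢
    linarith
  filter_upwards [h1.eventually (lt_mem_nhds hc)] with X hX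
  have h5 : ({e ∈ Fam d e₀ S inf | absDisc e ≤ X ∧ Good (e * d)}.ncard : ℝ) ≤
      ({e ∈ Fam d e₀ S inf | absDisc e ≤ X ∧ HoldsOver d e}.ncard : ℝ) := by
    have h6 : {e ∈ Fam d e₀ S inf | absDisc e ≤ X ∧ Good (e * d)} ⊆
        {e ∈ Fam d e₀ S inf | absDisc e ≤ X ∧ HoldsOver d e} :=
      fun e he => ⟨he.1, he.2.1, h2 e he.1 he.2.2⟩
    have h7 : {e ∈ Fam d e₀ S inf | absDisc e ≤ X ∧ HoldsOver d e}.Finite :=
      (disc_finite (Fam d e₀ S inf) X).subset fun e he => ⟨he.1, he.2.1⟩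
    exact_mod_cast Set.ncard_le_ncard h6 h7
  refine le_trans ?_ h5
  rcases (Nat.cast_nonneg (α := ℝ) ({e ∈ Fam d e₀ S inf | absDisc e ≤ X}.ncard)).eq_or_lt with
    h8 | h8
  · rw [← h8, mul_zero]
    exact Nat.cast_nonneg _
  · exact ((lt_div_iff₀ h8).1 hX).le

end Pool.Agent.Results.MP_413b36_nt.QuadraticFieldsX49
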