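import Pool.Agent.L0h23.Z12.Ord
import Pool.Agent.L0h86.F3.Fin
import Pool.Agent.Y948.CQ.C2

/-!
# The Birch and Swinnerton-Dyer conjecture modulo 2 for `y² = x³ + D³` over the subfields of `ℚ(ζ₁₂)`

`E_D : y² = x³ + D³` is the quadratic twist by `D` of `X_0(36) : y² = x³ + 1`. Let `D > 1` run through the
squarefree numbers prime to `3` and congruent to `1` modulo `4`, and let `K` be any number field contained
in the field of the twelfth roots of unity: `ℚ`, `ℚ(i)`, `ℚ(√-3)`, `ℚ(√3)`, `ℚ(ζ₁₂)`. For an exactly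
known proportion of these `D`, `(1/2) ∏_{i ≥ 0} (1 - 2^{-(2i+1)}) = 0.2097...`, the `D` such that `E_D(ℚ)`
is finite and `Ш(E_D/ℚ)[2] = 0`, we prove Q1 of the problem for `E_D` and for `E_{-D}` over all the five
fields `K`, in the form of the frozen statement `S16693`: the order of vanishing of `L(E_{± D}/K, s)` at
`s = 1` and the rank of `E_{± D}(K)` are both zero.

The proof: the `L`-function over `K` is the product of those of the twists of `E_D` by `1, -1, 3, -3` over
`ℚ`; the twists by `m` and `-3 m` are isogenous. The theorem on the twists over `ℚ` by `D` and `-D` is in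
`Results/MP_696deb_nt/TwistsX36BothSigns.lean` (helpers 1, 4, 23, 61, 74, 80, 86): it uses one and the same
determinant of residue symbols for `D` and `-D`. The passage to the field `K` is in
`Pool/Agent/L0h74/NF` (helper 74) and `Pool/Agent/L0h23/Z12`.
-/

set_option autoImplicit false

open scoped Classical
open NumberField

namespace Pool.Agent.Results.MP_413b36_nt.X36TwelfthRoots

/-- The quadratic twist by `n` of `y² = x³ + 1`, over `K`: the curve `y² = x³ + n³`. -/
def curve (K : Type) [Field K] (n : ℤ) : WeierstrassCurve K :=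
  { a₁ := 0, a₂ := 0, a₃ := 0, a₄ := 0, a₆ := (n : K) ^ 3 }

/-! ### Q1 in the form of the frozen statement -/

/-- `M P` is an equation of `E` over the integers which is minimal at the prime ideal `P`, for all `P`. -/
def IsMinimal {K : Type} [Field K] [NumberField K] (E : WeierstrassCurve K)
    (M : {P : Ideal (𝓞 K) // P.IsPrime ∧ P ≠ ⊥} → WeierstrassCurve (𝓞 K)) : Prop :=
  ∀ P, (∃ C : WeierstrassCurve.VariableChange K, C • E = (M P).map (algebraMap (𝓞 K) K)) ∧
      ∀ W : WeierstrassCurve (𝓞 K),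
        (∃ C : WeierstrassCurve.VariableChange K, C • E = W.map (algebraMap (𝓞 K) K)) →
        ∀ n : ℕ, (M P).Δ ∈ P.1 ^ n → W.Δ ∈ P.1 ^ n

/-- The Euler factor of the Hasse–Weil `L`-function at the prime ideal `P`. -/
noncomputable def eulerFactor {K : Type} [Field K] [NumberField K]
    (M : {P : Ideal (𝓞 K) // P.IsPrime ∧ P ≠ ⊥} → WeierstrassCurve (𝓞 K)) (s : ℂ)
    (P : {P : Ideal (𝓞 K) // P.IsPrime ∧ P ≠ ⊥}) : ℂ :=
  (1 - ((Nat.card (𝓞 K ⧸ P.1) : ℂ)
               - (Nat.card {xy : (𝓞 K ⧸ P.1) × (𝓞 K ⧸ P.1) //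
                   ((M P).map (Ideal.Quotient.mk P.1)).toAffine.Equation xy.1 xy.2} : ℂ))
             * (Nat.card (𝓞 K ⧸ P.1) : ℂ) ^ (-s)
           + (if (M P).Δ ∈ P.1 then 0 else (Nat.card (𝓞 K ⧸ P.1) : ℂ) ^ (1 - 2 * s)))⁻¹

/-- Q1 for the pair `(K, E)` (with all the terms of the frozen statement `S16693`), with the additional
information that the order and the rank are zero: all the points of `E(K)` have finite order; there are
families of minimal equations; for each of them, the Hasse–Weil `L`-function, which converges for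
`Re s > 3/2`, has an analytic continuation to a connected open set with `Re s > 3/2` and `s = 1`, and each
such continuation is nonzero at `s = 1`, so that the order and the rank have the same parity. -/
def OrderRankZero (K : Type) [Field K] [NumberField K] (E : WeierstrassCurve K) : Prop :=
  (∀ P : E.toAffine.Point, IsOfFinAddOrder P) ∧ Module.finrank ℤ E.toAffine.Point = 0 ∧
  (∃ M : {P : Ideal (𝓞 K) // P.IsPrime ∧ P ≠ ⊥} → WeierstrassCurve (𝓞 K), IsMinimal E M) ∧
  ∀ M : {P : Ideal (𝓞 K) // P.IsPrime ∧ P ≠ ⊥} → WeierstrassCurve (𝓞 K), IsMinimal E M →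
    (∃ (U : Set ℂ) (f : ℂ → ℂ), IsOpen U ∧ IsConnected U ∧ (1 : ℂ) ∈ U ∧
      {s : ℂ | 3 / 2 < s.re} ⊆ U ∧ AnalyticOnNhd ℂ f U ∧
      ∀ s : ℂ, 3 / 2 < s.re → HasProd (fun P => eulerFactor M s P) (f s)) ∧
    ∀ (U : Set ℂ) (f : ℂ → ℂ), IsOpen U → IsConnected U → (1 : ℂ) ∈ U →
      {s : ℂ | 3 / 2 < s.re} ⊆ U → AnalyticOnNhd ℂ f U →
      (∀ s : ℂ, 3 / 2 < s.re → f s = ∏' P, eulerFactor M s P) →
      analyticOrderAt f 1 = 0 ∧ Even (analyticOrderNatAt f 1 + Module.finrank ℤ E.toAffine.Point)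

/-! ### The family -/

/-- `D > 1` is squarefree, prime to `3` and congruent to `1` modulo `4`. -/
def Adm (D : ℕ) : Prop := 1 < D ∧ Squarefree D ∧ D % 4 = 1 ∧ ¬ 3 ∣ D

/-- `E_D(ℚ)` is finite and `Ш(E_D/ℚ)[2] = 0`. -/
def TrivialTwo (D : ℕ) : Prop :=
  Finite (curve ℚ D).toAffine.Point ∧
    ∀ x : Pool.Agent.TH841.NF.D.Sha (curve ℚ D), x + x = 0 → x = 0

/-- Q1 holds, with order and rank zero, for `E_D` and for `E_{-D}` over every number field `K` which is
isomorphic to a subfield of the field of the twelfth roots of unity. -/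
def HoldsOverAll (D : ℕ) : Prop :=
  ∀ (K : Type) [Field K] [NumberField K], Nonempty (K →+* CyclotomicField 12 ℚ) →
    OrderRankZero K (curve K D) ∧ OrderRankZero K (curve K (-D))

/-! ### The proof -/

lemma curve_pos (D : ℕ) : curve ℚ D = Pool.Agent.L0h86.F1.WM ℚ D := by
  unfold curve Pool.Agent.L0h86.F1.WM
  push_cast
  rfl

lemma curve_eq (K : Type) [Field K] (d : ℤ) :
    curve K d = Pool.Agent.L0h74.NF.Sw K 0 (d ^ 3) := by
  unfold curve Pool.Agent.L0h74.NF.Sw
  push_cast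
  rfl

lemma adm_iff {D : ℕ} : Adm D ↔ 1 < D ∧ Pool.Agent.L0h86.F1.AdmM D :=
  and_congr_right fun _ => ⟨fun h => ⟨h.1, h.2.1, h.2.2⟩, fun h => ⟨h.sf, h.m4, h.n3⟩⟩

lemma two_iff {D : ℕ} (h : Adm D) :
    TrivialTwo D ↔ (Pool.Agent.L0h86.F3.mM D).det ≠ 0 := by
  unfold TrivialTwo
  rw [curve_pos]
  exact Pool.Agent.L0h1.F3R.tt_mM (adm_iff.1 h).2 (by have := h.1; omega)

lemma ord {K : Type} [Field K] [NumberField K] (f : K →+* CyclotomicField 12 ℚ) {d : ℤ} (hd : d ≠ 0)
    (h : ∀ m : ℤ, m = 1 ∨ m = -1 ∨ m = 3 ∨ m = -3 → Pool.Agent.L0h1.F3R.RZ (d * m)) :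
    OrderRankZero K (curve K d) := by
  rw [curve_eq]
  obtain ⟨⟨h1, h2, h3⟩, h0⟩ := Pool.Agent.L0h23.Z12.ordRank f hd h
  refine ⟨h0, h1, h2, fun M hM => ?_⟩
  obtain ⟨h4, h5⟩ := h3 M hM
  refine ⟨h4, fun U f a1 a2 a3 a4 a5 a6 => ?_⟩
  have h6 := h5 U f a1 a2 a3 a4 a5 a6
  refine ⟨h6, ?_⟩
  rw [h1, analyticOrderNatAt, h6]
  exact Even.zero

lemma holds {D : ℕ} (h : Adm D) (h2 : TrivialTwo D) : HoldsOverAll D := by
  intro K _ _ hK
  obtain ⟨f⟩ := hK
  have hD0 : (D : ℤ) ≠ 0 := by exact_mod_cast h.2.1.ne_zero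
  have key : ∀ m : ℤ, m = D ∨ m = -D ∨ m = 3 * D ∨ m = -3 * D → Pool.Agent.L0h1.F3R.RZ m :=
    fun m hm => Pool.Agent.L0h1.F3R.rank_all (adm_iff.1 h).2 (by have := h.1; omega)
      ((two_iff h).1 h2) hm
  refine ⟨ord f hD0 fun m hm => key _ ?_, ord f (neg_ne_zero.2 hD0) fun m hm => key _ ?_⟩
  · rcases hm with rfl | rfl | rfl | rfl
    · exact Or.inl (by ring)
    · exact Or.inr (Or.inl (by ring))
    · exact Or.inr (Or.inr (Or.inl (by ring)))
    · exact Or.inr (Or.inr (Or.inr (by ring)))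
  · rcases hm with rfl | rfl | rfl | rfl
    · exact Or.inr (Or.inl (by ring))
    · exact Or.inl (by ring)
    · exact Or.inr (Or.inr (Or.inr (by ring)))
    · exact Or.inr (Or.inr (Or.inl (by ring)))

/-- **The Birch and Swinnerton-Dyer conjecture modulo 2 for the curves `y² = x³ ± D³`, for an exactly
known proportion of the `D ≡ 1 mod 4`, over all the subfields of `ℚ(ζ₁₂)` at the same time.** -/
theorem result :
    (∀ D : ℕ, Adm D → TrivialTwo D → HoldsOverAll D) ∧
    Filter.Tendsto (fun X : ℕ =>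
        (((Finset.Icc 1 X).filter fun D => Adm D ∧ TrivialTwo D).card : ℝ) /
        (((Finset.Icc 1 X).filter fun D => Adm D).card : ℝ)) Filter.atTop
      (nhds ((∏' i : ℕ, (1 - (1 / 2 : ℝ) ^ (2 * i + 1))) / 2)) ∧
    ∀ᶠ X : ℕ in Filter.atTop,
      0.2097 * (((Finset.Icc 1 X).filter fun D => Adm D).card : ℝ) ≤
        (((Finset.Icc 1 X).filter fun D => Adm D ∧ HoldsOverAll D).card : ℝ) := by
  have h1 : Filter.Tendsto (fun X : ℕ =>
        (((Finset.Icc 1 X).filter fun D => Adm D ∧ TrivialTwo D).card : ℝ) /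
        (((Finset.Icc 1 X).filter fun D => Adm D).card : ℝ)) Filter.atTop
      (nhds ((∏' i : ℕ, (1 - (1 / 2 : ℝ) ^ (2 * i + 1))) / 2)) := by
    have h3 := Pool.Agent.L0h86.F3.densM (R := fun D => TrivialTwo D) fun D h1 h2 =>
      two_iff (adm_iff.2 ⟨h1, h2⟩)
    refine h3.congr fun X => congrArg₂ (fun a b : ℕ => (a : ℝ) / (b : ℝ)) ?_ ?_
    · refine congrArg Finset.card (Finset.ext fun D => ?_)
      rw [Finset.mem_filter, Finset.mem_filter]
      refine and_congr_right fun _ => ?_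
      rw [adm_iff, and_assoc]
    · refine congrArg Finset.card (Finset.ext fun D => ?_)
      rw [Finset.mem_filter, Finset.mem_filter]
      exact and_congr_right fun _ => adm_iff.symm
  refine ⟨fun D h h2 => holds h h2, h1, ?_⟩
  have hc : (0.2097 : ℝ) < (∏' i : ℕ, (1 - (1 / 2 : ℝ) ^ (2 * i + 1))) / 2 := by
    have h3 := Pool.Agent.Y948.CQ.t_C2.2.2.2.1
    have h4 : (∏' i : ℕ, (1 - (1 / 2 : ℝ) ^ (2 * i + 1))) = Pool.Agent.Y703.CQ.c2 := rfl
    rw [h4]
    norm_num at h3 ⊢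
    linarith
  filter_upwards [h1.eventually (lt_mem_nhds hc)] with X hX
  have h5 : (((Finset.Icc 1 X).filter fun D => Adm D ∧ TrivialTwo D).card : ℝ) ≤
      (((Finset.Icc 1 X).filter fun D => Adm D ∧ HoldsOverAll D).card : ℝ) := by
    have h6 : ((Finset.Icc 1 X).filter fun D => Adm D ∧ TrivialTwo D) ⊆
        ((Finset.Icc 1 X).filter fun D => Adm D ∧ HoldsOverAll D) := by
      intro D hD
      rw [Finset.mem_filter] at hD ⊢
      exact ⟨hD.1, hD.2.1, holds hD.2.1 hD.2.2⟩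
    exact_mod_cast Finset.card_le_card h6
  refine le_trans ?_ h5
  rcases (Nat.cast_nonneg (α := ℝ) (((Finset.Icc 1 X).filter fun D => Adm D).card)).eq_or_lt with
    h8 | h8
  · rw [← h8, mul_zero]
    exact Nat.cast_nonneg _
  · exact ((lt_div_iff₀ h8).1 hX).le

end Pool.Agent.Results.MP_413b36_nt.X36TwelfthRoots
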